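import Pool.Agent.H8.JS.Targets

/-!
Board js8_modules: C6, the running time for one row.
-/

set_option autoImplicit false

namespace Pool.Agent.H64.JS

open Pool.Agent.H8.JS

theorem pf_c6 (hC3 : J_C3) (hC4 : J_C4) : J_C6 := by
  intro r T U Hh Vv x i c y L fr w N hN
  have h1 : ∀ w, Ru (S5 (r := r) U Hh Vv x) ⟨.bck, i, c, 0, 0, L, y, L, w⟩ (L + 1 + N) :=
    fun w => (hC4 r T U Hh Vv x i c y L w).2 N (hN w)
  have h2 : Ru (S5 (r := r) U Hh Vv x)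
      ⟨.cel fr (decide (y = 0)) none, i, c, 0, L, 0, y, 0, w⟩ (L + 1 + N + 2 * L + 1) :=
    hC3 r T U Hh Vv x i c y fr (decide (y = 0)) L (L + 1 + N) h1 L 0 w none (Nat.zero_add L)
  have h3 : N + (3 * L + 4) = L + 1 + N + 2 * L + 1 + 1 + 1 := by ring
  rw [h3, ru_iff]
  intro c1 hc1
  have h4 : c1 = ⟨.lst fr, i, c, 0, L, 0, y, 0, w⟩ := by
    simpa [S5] using hc1
  rw [h4, ru_iff]
  intro c2 hc2
  have h5 : c2 = ⟨.cel fr (decide (y = 0)) none, i, c, 0, L, 0, y, 0, w⟩ := by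
    simpa [S5] using hc2
  rw [h5]
  exact h2

end Pool.Agent.H64.JS
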