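import Pool.Agent.H8.JS.Targets

/-!
Board js8_modules: C8, the running time for all rows.
-/

set_option autoImplicit false

namespace Pool.Agent.H64.JS

open Pool.Agent.H8.JS

theorem pf_c8 (hC6 : J_C6) : J_C8 := by
  intro r T U Hh Vv x i c L b
  induction b with
  | zero =>
    intro fr w
    rw [Nat.zero_mul, ru_iff]
    intro c' hc'
    have h : c' = ⟨.acc, i, c, 0, L, 0, 0, 0, w⟩ := by
      simpa [S5] using hc'
    rw [h, ru_zero]
    intro c'' hc''
    simp [S5] at hc''
  | succ b ih =>
    intro fr w
    refine (hC6 r T U Hh Vv x i c b L fr w (b * (3 * L + 4) + 1) fun w' => ih false w').mono ?_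
    ring_nf
    exact le_rfl

end Pool.Agent.H64.JS
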